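import Pool.Agent.H.MP_fb4a47_lc.A

namespace Pool.Agent.Results.MP_fb4a47_lc.SmallN

/-- The word `x^k`. -/
def pw {A : Type} (x : List A) (k : ℕ) : List A := (List.replicate k x).flatten

/-- One derivation step: a factor `x^n` is replaced by `x^(n+m)`. -/
def Step {A : Type} (n m : ℕ) (a b : List A) : Prop :=
  ∃ u v x : List A, a = u ++ pw x n ++ v ∧ b = u ++ pw x (n + m) ++ v

/-- `L(w)`: all words obtainable from `w` by finitely many steps. -/
def L {A : Type} (n m : ℕ) (w : List A) : Language A :=
  {v | Relation.ReflTransGen (Step n m) w v}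

theorem pw_succ {A : Type} (x : List A) (k : ℕ) : pw x (k + 1) = x ++ pw x k := by
  simp [pw, List.replicate_succ]

theorem pw_add {A : Type} (x : List A) (k l : ℕ) : pw x (k + l) = pw x k ++ pw x l := by
  simp only [pw, List.replicate_add, List.flatten_append]

theorem pw_len {A : Type} (x : List A) (k : ℕ) : (pw x k).length = k * x.length := by
  simp [pw]

theorem pw_get {A : Type} (x : List A) (k : ℕ) : ∀ i < k * x.length,
    (pw x k)[i]? = x[i % x.length]? := by
  induction k with
  | zero => intro i h; omega
  | succ k ih =>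
    intro i h
    rw [pw_succ]
    by_cases hi : i < x.length
    · rw [List.getElem?_append_left hi, Nat.mod_eq_of_lt hi]
    · rw [List.getElem?_append_right (by omega), ih _ (by rw [add_mul] at h; omega),
        ← Nat.mod_eq_sub_mod (by omega)]

def pre (U : ℕ → Bool) (j : ℕ) : List Bool := (List.range j).map U

theorem lower (U : ℕ → Bool) (n m : ℕ) (hn : 1 ≤ n) (hm : 1 ≤ m)
    (pf : ∀ q, 0 < q → ∀ s, ¬ ∀ i < (n + m - 1) * q, U (s + i) = U (s + i + q))
    (w z : List Bool) (hz : z ∈ L n m w) :
    ∀ j, (∀ i < j, z[i]? = some (U i)) → j ≤ z.length → j ≤ (n + m) ^ (z.length - j) * w.length := by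
  induction hz with
  | refl =>
    intro j _ h
    exact h.trans (Nat.le_mul_of_pos_left _ (by positivity))
  | tail _ hs ih =>
    obtain ⟨u, v, x, rfl, rfl⟩ := hs
    intro j H hj
    simp only [List.length_append, pw_len] at ih hj ⊢
    have hC : 1 ≤ n + m := by omega
    have hadd : (n + m) * x.length = n * x.length + m * x.length := add_mul _ _ _
    have agree : ∀ i < u.length + n * x.length,
        (u ++ pw x n ++ v)[i]? = (u ++ pw x (n + m) ++ v)[i]? := by
      intro i hi
      have hi' : i < (u ++ pw x n).length := by simpa [pw_len] using hi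
      rw [pw_add, ← List.append_assoc, List.append_assoc _ (pw x m),
        List.getElem?_append_left hi', List.getElem?_append_left hi']
    by_cases h1 : j ≤ u.length + n * x.length
    · refine (ih j (fun i hi => (agree i (by omega)).trans (H i hi)) (by omega)).trans ?_
      exact Nat.mul_le_mul_right _ (Nat.pow_le_pow_right hC (by omega))
    have h0 := ih (u.length + n * x.length) (fun i hi => (agree i hi).trans (H i (by omega)))
      (by omega)
    rw [show u.length + n * x.length + v.length - (u.length + n * x.length) = v.length by omega]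
      at h0
    by_cases hx : x.length = 0
    · refine (ih j (fun i hi => ?_) (by rw [hx] at hj ⊢; omega)).trans ?_
      · rw [← H i hi, List.length_eq_zero_iff.1 hx]; simp [pw]
      · rw [hx]; exact le_rfl
    have h2 : j < u.length + (n + m) * x.length := by
      by_contra hc
      have e : ∀ i < (n + m) * x.length, some (U (u.length + i)) = x[i % x.length]? := by
        intro i hi
        rw [← H _ (by omega), List.append_assoc, List.getElem?_append_right (by omega),
          Nat.add_sub_cancel_left, List.getElem?_append_left (by rw [pw_len]; exact hi),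
          pw_get _ _ _ hi]
      refine pf x.length (by omega) u.length fun i hi => ?_
      have hs : (n + m) * x.length = (n + m - 1) * x.length + x.length := by
        conv_lhs => rw [show n + m = (n + m - 1) + 1 by omega, add_mul, one_mul]
      have a := e i (by omega)
      have b := e (i + x.length) (by omega)
      rw [Nat.add_mod_right, ← a, ← add_assoc] at b
      exact (Option.some.inj b).symm
    calc j ≤ (n + m) * (u.length + n * x.length) := by nlinarith [Nat.zero_le (m * x.length)]
      _ ≤ (n + m) * ((n + m) ^ v.length * w.length) := Nat.mul_le_mul_left _ h0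
      _ = (n + m) ^ (v.length + 1) * w.length := by ring
      _ ≤ _ := Nat.mul_le_mul_right _ (Nat.pow_le_pow_right hC (by omega))

theorem extend (U : ℕ → Bool) (n m j0 : ℕ) (hn : 1 ≤ n) (hm : 1 ≤ m)
    (cov : ∀ j, j0 ≤ j → ∃ a q, 0 < q ∧ j = a + n * q ∧
      ∀ i ≤ (n - 1) * q, U (a + i + q) = U (a + i)) (j : ℕ) (hj : j0 ≤ j) :
    ∃ v, pre U j ++ v ∈ L n m (pre U j0) := by
  induction j, hj using Nat.le_induction with
  | base => exact ⟨[], by rw [List.append_nil]; exact Relation.ReflTransGen.refl⟩
  | succ j hj ih =>
    obtain ⟨v, hv⟩ := ih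
    obtain ⟨a, q, hq, rfl, H⟩ := cov j hj
    have hs : n * q = (n - 1) * q + q := by
      conv_lhs => rw [show n = (n - 1) + 1 by omega, add_mul, one_mul]
    have md : ∀ i, i ≤ n * q → U (a + i) = U (a + i % q) := by
      intro i
      induction i using Nat.strong_induction_on with
      | _ i ih =>
        intro hi
        by_cases h : i < q
        · rw [Nat.mod_eq_of_lt h]
        · rw [Nat.mod_eq_sub_mod (by omega), ← ih (i - q) (by omega) (by omega),
            ← H (i - q) (by omega)]
          congr 1; omega
    let x : List Bool := (List.range q).map fun i => U (a + i)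
    have hx : x.length = q := by simp [x]
    have e1 : pre U (a + n * q) = pre U a ++ pw x n := by
      apply List.ext_getElem?
      intro i
      by_cases h1 : i < a
      · rw [List.getElem?_append_left (by simpa [pre] using h1)]
        simp [pre, List.getElem?_range h1, List.getElem?_range (show i < a + n * q by omega)]
      by_cases h2 : i < a + n * q
      · rw [List.getElem?_append_right (by simpa [pre] using h1), pw_get _ _ _
          (by simp only [pre, List.length_map, List.length_range, hx]; omega), hx]
        simp only [pre, x, List.length_map, List.length_range, List.getElem?_map,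
          List.getElem?_range h2, List.getElem?_range (Nat.mod_lt _ hq), Option.map_some]
        rw [← md _ (by omega)]
        congr 2; omega
      · rw [List.getElem?_eq_none (by simp [pre]; omega),
          List.getElem?_eq_none (by simp [pre, pw_len, hx]; omega)]
    obtain ⟨m, rfl⟩ : ∃ k, m = k + 1 := ⟨m - 1, by omega⟩
    obtain ⟨y, hy⟩ : ∃ y, x = U (a + n * q) :: y := by
      obtain ⟨q, rfl⟩ : ∃ k, q = k + 1 := ⟨q - 1, by omega⟩
      refine ⟨x.tail, ?_⟩
      rw [md _ le_rfl, Nat.mul_mod_left]
      simp [x, List.range_succ_eq_map]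
    refine ⟨y ++ pw x m ++ v, Relation.ReflTransGen.tail hv ⟨pre U a, v, x, by rw [e1], ?_⟩⟩
    rw [pw_add, ← List.append_assoc (pre U a), ← e1, pw_succ]
    have e2 : x ++ pw x m = U (a + n * q) :: (y ++ pw x m) := by
      rw [← List.cons_append, ← hy]
    rw [e2]
    simp [pre, List.range_succ]

theorem nonreg (U : ℕ → Bool) (n m j0 : ℕ) (hn : 1 ≤ n) (hm : 1 ≤ m)
    (pf : ∀ q, 0 < q → ∀ s, ¬ ∀ i < (n + m - 1) * q, U (s + i) = U (s + i + q))
    (cov : ∀ j, j0 ≤ j → ∃ a q, 0 < q ∧ j = a + n * q ∧
      ∀ i ≤ (n - 1) * q, U (a + i + q) = U (a + i)) : ¬ (L n m (pre U j0)).IsRegular := by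
  classical
  intro hr
  have hf := hr.finite_range_leftQuotient
  let c : Language Bool → ℕ := fun Q => if h : ∃ v, v ∈ Q then h.choose.length else 0
  obtain ⟨B, hB⟩ := (hf.image c).bddAbove
  let j := (n + m) ^ B * j0 + j0 + 1
  obtain ⟨v, hv⟩ := extend U n m j0 hn hm cov j (by omega)
  have hex : ∃ v, v ∈ (L n m (pre U j0)).leftQuotient (pre U j) := ⟨v, hv⟩
  have h1 : hex.choose.length ≤ B := by
    have := hB ⟨_, ⟨pre U j, rfl⟩, rfl⟩
    simpa only [c, dif_pos hex] using this
  have h2 := lower U n m hn hm pf _ _ hex.choose_spec j (fun i hi => by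
    rw [List.getElem?_append_left (by simpa [pre] using hi)]
    simp [pre, List.getElem?_range hi]) (by simp [pre])
  simp only [pre, List.length_append, List.length_map, List.length_range,
    Nat.add_sub_cancel_left] at h2
  have h3 : (n + m) ^ hex.choose.length * j0 ≤ (n + m) ^ B * j0 :=
    Nat.mul_le_mul_right _ (Nat.pow_le_pow_right (by omega) h1)
  have := h2.trans h3
  omega

open Pool.Agent.H.MP_fb4a47_lc in
theorem result (n m : ℕ) (hn : n = 1 ∨ n = 2) (hm : 2 ≤ m) :
    ∃ w : List Bool, ¬ (L n m w).IsRegular := by
  rcases hn with rfl | rfl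
  · refine ⟨_, nonreg T 1 m 2 le_rfl (by omega) (fun q hq s H => T_pf q hq s fun i hi => H i ?_)
      fun j hj => by simpa using T_cov j hj⟩
    exact hi.trans_le (Nat.mul_le_mul_right _ (by omega))
  · refine ⟨_, nonreg U 2 m 87 (by omega) (by omega)
      (fun q hq s H => U_pf q hq s fun i hi => H i ?_) fun j hj => by simpa using U_cov j hj⟩
    exact hi.trans_le (Nat.mul_le_mul_right _ (by omega))

end Pool.Agent.Results.MP_fb4a47_lc.SmallN
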